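import Pool.Agent.Q175.MW.LiftK

/-!
MP_cbfcf7_gt, Q1: the Milnor-Wood inequality for area preserving actions of surface groups on the
plane, for all actions whose standard generators are limits, uniform on compact sets, of area
preserving diffeomorphisms; in particular for all actions by area preserving diffeomorphisms.

`PlaneLift` (from the library `PlaneEuler`) is the universal central extension of the group of
orientation preserving homeomorphisms of the plane: homeomorphisms `f` with a continuous choice,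
over all ordered pairs `p ≠ q`, of an argument of `(f q - f p) / (q - p)`.  `HasEulerNumber ρ n`
says that the standard generators have lifts and that for all lifts the product of the
commutators `[A_i, B_i]` is the central element `central n`.
-/

set_option autoImplicit false

open Filter Topology
open scoped commutatorElement

namespace Pool.Agent.Results.MP_cbfcf7_gt.MilnorWood

open Pool.Agent.Helper11.PlaneEuler Pool.Agent.Q175.MW

/-- area preserving smooth diffeomorphism of the plane: smooth with smooth inverse, and with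
Jacobian determinant one everywhere -/
def APDiffeo (h : ℂ ≃ₜ ℂ) : Prop :=
  ContDiff ℝ ((⊤ : ℕ∞) : WithTop ℕ∞) (⇑h) ∧ ContDiff ℝ ((⊤ : ℕ∞) : WithTop ℕ∞) (⇑h.symm) ∧
    ∀ z : ℂ, (fderiv ℝ (⇑h) z).det = 1

/-- `f` is a limit, uniform on compact sets, of area preserving diffeomorphisms of the plane -/
def UniformLimit (f : ℂ ≃ₜ ℂ) : Prop :=
  ∀ r ε : ℝ, 0 < ε → ∃ h : ℂ ≃ₜ ℂ, APDiffeo h ∧ ∀ z : ℂ, ‖z‖ ≤ r → ‖h z - f z‖ < ε

/-- `f` preserves Lebesgue measure and orientation (it has a lift to `PlaneLift`) -/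
def AreaHomeo (f : ℂ ≃ₜ ℂ) : Prop :=
  MeasureTheory.MeasurePreserving (⇑f) ∧ ∃ F : PlaneLift, F.homeo = f

theorem UniformLimit.appr {f : ℂ ≃ₜ ℂ} (hf : UniformLimit f) : ApprK f := by
  intro r ε hε
  obtain ⟨h, ⟨h3, h4, h5⟩, h6⟩ := hf r ε hε
  exact ⟨h.toEquiv, ⟨h3, h4, h5⟩, h6⟩

theorem APDiffeo.limit {f : ℂ ≃ₜ ℂ} (hf : APDiffeo f) : UniformLimit f := by
  intro r ε hε
  refine ⟨f, hf, fun z _ => ?_⟩
  rw [sub_self, norm_zero]
  exact hε

theorem lift_rel {G : Type} [Group G] (g : ℕ) (f : Fin g ⊕ Fin g → G) :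
    FreeGroup.lift f (surfaceRelator g) =
      (List.ofFn fun i : Fin g => ⁅f (Sum.inl i), f (Sum.inr i)⁆).prod := by
  unfold surfaceRelator
  rw [map_list_prod, List.map_ofFn]
  congr 2
  funext i
  simp [map_commutatorElement]

theorem central_inj {m n : ℤ} (h : central m = central n) : m = n := by
  have h2 : (central m).angle ⟨(0, 1), by simp⟩ = (central n).angle ⟨(0, 1), by simp⟩ := by rw [h]
  have h3 : 2 * Real.pi * (m : ℝ) = 2 * Real.pi * (n : ℝ) := h2
  have h4 : (m : ℝ) = n := mul_left_cancel₀ (by positivity) h3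
  exact_mod_cast h4

/-- forgetting the angle -/
def toHomeo : PlaneLift →* (ℂ ≃ₜ ℂ) where
  toFun F := F.homeo
  map_one' := rfl
  map_mul' _ _ := rfl

/-- if the generators have lifts then there is an Euler number -/
theorem exists_euler {g : ℕ} (ρ : SurfaceGroup g →* (ℂ ≃ₜ ℂ))
    (h : ∀ s, ∃ F : PlaneLift, F.homeo = ρ (PresentedGroup.of s)) :
    ∃ n : ℤ, HasEulerNumber ρ n := by
  choose F hF using h
  have h1 : toHomeo (FreeGroup.lift F (surfaceRelator g)) = 1 := by
    have e1 : toHomeo.comp (FreeGroup.lift F) = ρ.comp (PresentedGroup.mk _) := by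
      ext1 s
      simp only [MonoidHom.comp_apply, FreeGroup.lift_apply_of]
      exact hF s
    have e2 := congrArg (fun φ : FreeGroup (Fin g ⊕ Fin g) →* (ℂ ≃ₜ ℂ) =>
      φ (surfaceRelator g)) e1
    simp only [MonoidHom.comp_apply] at e2
    rw [e2]
    have e3 : (PresentedGroup.mk {surfaceRelator g}) (surfaceRelator g) = 1 :=
      PresentedGroup.one_of_mem rfl
    rw [e3, map_one]
  obtain ⟨n, hn⟩ := lift_unique (FreeGroup.lift F (surfaceRelator g)) 1 h1
  rw [mul_one, lift_rel] at hn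
  refine ⟨n, ⟨fun i => F (Sum.inl i), fun i => F (Sum.inr i), fun i => hF _, fun i => hF _⟩, ?_⟩
  intro A B hA hB
  rw [← hn]
  congr 2
  funext i
  obtain ⟨k, hk⟩ := lift_unique (A i) (F (Sum.inl i)) ((hA i).trans (hF _).symm)
  obtain ⟨l, hl⟩ := lift_unique (B i) (F (Sum.inr i)) ((hB i).trans (hF _).symm)
  rw [hk, hl, comm_central']

theorem bound_of_euler {g : ℕ} (hg : 1 ≤ g) (ρ : SurfaceGroup g →* (ℂ ≃ₜ ℂ))
    (hρ : ∀ s, UniformLimit (ρ (PresentedGroup.of s))) (n : ℤ) (hn : HasEulerNumber ρ n) :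
    |n| ≤ 2 * (g : ℤ) - 2 := by
  obtain ⟨k, rfl⟩ : ∃ k, g = k + 1 := ⟨g - 1, by omega⟩
  obtain ⟨⟨A, B, hA, hB⟩, h⟩ := hn
  have h1 := h A B hA hB
  have h2 := milnor_woodK k (Sum.elim A B) (by
    rintro (i | i)
    · show ApprK (A i).homeo
      rw [hA i]
      exact (hρ _).appr
    · show ApprK (B i).homeo
      rw [hB i]
      exact (hρ _).appr) n (by
    rw [lift_rel]
    exact h1)
  push_cast
  linarith

/-- The Milnor-Wood inequality: the action has exactly one Euler number `n`, and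
`|n| ≤ 2 g - 2`. The third part is the inequality for all area preserving actions by
homeomorphisms, given that area preserving homeomorphisms are limits of area preserving
diffeomorphisms. -/
theorem result (g : ℕ) (hg : 1 ≤ g) (ρ : SurfaceGroup g →* (ℂ ≃ₜ ℂ)) :
    ((∀ s : Fin g ⊕ Fin g, UniformLimit (ρ (PresentedGroup.of s))) →
      ∃ n : ℤ, (∀ m : ℤ, HasEulerNumber ρ m ↔ m = n) ∧ |n| ≤ 2 * (g : ℤ) - 2) ∧
    ((∀ γ : SurfaceGroup g, APDiffeo (ρ γ)) →
      ∃ n : ℤ, (∀ m : ℤ, HasEulerNumber ρ m ↔ m = n) ∧ |n| ≤ 2 * (g : ℤ) - 2) ∧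
    ((∀ f : ℂ ≃ₜ ℂ, AreaHomeo f → UniformLimit f) → (∀ γ : SurfaceGroup g, AreaHomeo (ρ γ)) →
      ∃ n : ℤ, (∀ m : ℤ, HasEulerNumber ρ m ↔ m = n) ∧ |n| ≤ 2 * (g : ℤ) - 2) := by
  have key : (∀ s : Fin g ⊕ Fin g, UniformLimit (ρ (PresentedGroup.of s))) →
      ∃ n : ℤ, (∀ m : ℤ, HasEulerNumber ρ m ↔ m = n) ∧ |n| ≤ 2 * (g : ℤ) - 2 := by
    intro hρ
    obtain ⟨n, hn⟩ := exists_euler ρ fun s => exists_lift_apprK _ (hρ s).appr
    refine ⟨n, fun m => ⟨fun hm => ?_, fun h => h ▸ hn⟩, bound_of_euler hg ρ hρ n hn⟩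
    obtain ⟨⟨A, B, hA, hB⟩, h⟩ := hm
    exact central_inj ((h A B hA hB).symm.trans (hn.2 A B hA hB))
  exact ⟨key, fun h => key fun s => (h _).limit, fun h1 h2 => key fun s => h1 _ (h2 _)⟩

end Pool.Agent.Results.MP_cbfcf7_gt.MilnorWood
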